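import Mathlib
import Pool.Agent.V114.PdHelper

/-!
An injective module in `⊥P` of infinite projective dimension.
-/

namespace Pool.Agent.Results.MP_3e7e0d_al.InjectivePerpInfinitePd

open CategoryTheory Pool.Agent.V114.PdHelper Abelian

set_option linter.unusedSectionVars false

noncomputable section

universe u

/-- `M ∈ ⊥P`: `Ext^i(M,P) = 0` for all `i ≥ 1` and all projective modules `P`. -/
def InPerpP (R : Type u) [Ring R] (M : Type u) [AddCommGroup M] [Module R M] : Prop :=
  ∀ (P : Type u) [AddCommGroup P] [Module R P], Module.Projective R P → ∀ i : ℕ, 1 ≤ i →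
    Subsingleton (Ext (ModuleCat.of R M) (ModuleCat.of R P) i)

/-- `HasPerpRes R n M`: there is an exact sequence `0 → T_n → ⋯ → T_0 → M → 0` with all `T_i` in
`⊥P` (stated recursively through kernels). -/
def HasPerpRes (R : Type u) [Ring R] : ℕ → ∀ (M : Type u) [AddCommGroup M] [Module R M], Prop
  | 0, M, _, _ => InPerpP R M
  | n + 1, M, _, _ => ∃ (T : Type u) (_ : AddCommGroup T) (_ : Module R T) (f : T →ₗ[R] M),
      InPerpP R T ∧ Function.Surjective f ∧ HasPerpRes R n (LinearMap.ker f)

/-- The `⊥P`-dimension: the least length of a resolution by modules in `⊥P`. -/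
def perpDim (R : Type u) [Ring R] (M : Type u) [AddCommGroup M] [Module R M] : ℕ∞ :=
  ⨅ (n : ℕ) (_ : HasPerpRes R n M), (n : ℕ∞)

/-- The ring of infinite bidiagonal matrices: diagonal entries `E x`, subdiagonal entries `a x`
(in position `(x+1, x)`), with products of subdiagonal parts set to zero. -/
@[ext] structure Q (k : Type) [Field k] where
  /-- diagonal part -/
  E : ℕ → k
  /-- subdiagonal part -/
  a : ℕ → k

namespace Q

variable {k : Type} [Field k]

instance : Zero (Q k) := ⟨⟨0, 0⟩⟩
instance : One (Q k) := ⟨⟨1, 0⟩⟩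
instance : Add (Q k) := ⟨fun p q => ⟨p.E + q.E, p.a + q.a⟩⟩
instance : Neg (Q k) := ⟨fun p => ⟨-p.E, -p.a⟩⟩
instance : Mul (Q k) := ⟨fun p q => ⟨p.E * q.E, fun x => p.E (x + 1) * q.a x + p.a x * q.E x⟩⟩

@[simp] lemma zero_E (i) : (0 : Q k).E i = 0 := rfl
@[simp] lemma zero_a (i) : (0 : Q k).a i = 0 := rfl
@[simp] lemma one_E (i) : (1 : Q k).E i = 1 := rfl
@[simp] lemma one_a (i) : (1 : Q k).a i = 0 := rfl
@[simp] lemma add_E (p q : Q k) (i) : (p + q).E i = p.E i + q.E i := rfl
@[simp] lemma add_a (p q : Q k) (i) : (p + q).a i = p.a i + q.a i := rfl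
@[simp] lemma neg_E (p : Q k) (i) : (-p).E i = -p.E i := rfl
@[simp] lemma neg_a (p : Q k) (i) : (-p).a i = -p.a i := rfl
@[simp] lemma mul_E (p q : Q k) (i) : (p * q).E i = p.E i * q.E i := rfl
@[simp] lemma mul_a (p q : Q k) (i) : (p * q).a i = p.E (i + 1) * q.a i + p.a i * q.E i := rfl

instance : Ring (Q k) := Ring.ofMinimalAxioms
  (fun a b c => by ext <;> simp [add_assoc])
  (fun a => by ext <;> simp)
  (fun a => by ext <;> simp)
  (fun a b c => by ext <;> simp <;> ring)
  (fun a => by ext <;> simp)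
  (fun a => by ext <;> simp)
  (fun a b c => by ext <;> simp <;> ring)
  (fun a b c => by ext <;> simp <;> ring)

/-- the idempotents -/
def e (x : ℕ) : Q k := ⟨fun i => if i = x then 1 else 0, 0⟩
/-- the arrows -/
def ar (x : ℕ) : Q k := ⟨0, fun i => if i = x then 1 else 0⟩

@[simp] lemma e_E (x i : ℕ) : (e x : Q k).E i = if i = x then 1 else 0 := rfl
@[simp] lemma e_a (x i : ℕ) : (e x : Q k).a i = 0 := rfl
@[simp] lemma ar_E (x i : ℕ) : (ar x : Q k).E i = 0 := rfl
@[simp] lemma ar_a (x i : ℕ) : (ar x : Q k).a i = if i = x then 1 else 0 := rfl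

end Q

open Q

variable (k : Type) [Field k]

/-- The simple module at vertex `x`. -/
@[ext] structure S (x : ℕ) where
  /-- the value -/
  v : k

/-- The projective module at vertex `x`. -/
@[ext] structure Pr (x : ℕ) where
  /-- top coordinate -/
  u : k
  /-- socle coordinate -/
  v : k

variable {k}

namespace S
variable {x : ℕ}
instance : Zero (S k x) := ⟨⟨0⟩⟩
instance : Add (S k x) := ⟨fun p q => ⟨p.v + q.v⟩⟩
instance : Neg (S k x) := ⟨fun p => ⟨-p.v⟩⟩
instance : SMul (Q k) (S k x) := ⟨fun r p => ⟨r.E x * p.v⟩⟩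
@[simp] lemma zero_v : (0 : S k x).v = 0 := rfl
@[simp] lemma add_v (p q : S k x) : (p + q).v = p.v + q.v := rfl
@[simp] lemma neg_v (p : S k x) : (-p).v = -p.v := rfl
@[simp] lemma smul_v (r : Q k) (p : S k x) : (r • p).v = r.E x * p.v := rfl
instance : AddCommGroup (S k x) where
  add_assoc a b c := by ext; simp [add_assoc]
  zero_add a := by ext; simp
  add_zero a := by ext; simp
  neg_add_cancel a := by ext; simp
  add_comm a b := by ext; simp [add_comm]
  nsmul := nsmulRec
  zsmul := zsmulRec
instance : Module (Q k) (S k x) where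
  one_smul b := by ext; simp
  mul_smul r s b := by ext; simp [mul_assoc]
  smul_zero r := by ext; simp
  smul_add r a b := by ext; simp [mul_add]
  add_smul r s a := by ext; simp [add_mul]
  zero_smul a := by ext; simp
end S

namespace Pr
variable {x : ℕ}
instance : Zero (Pr k x) := ⟨⟨0, 0⟩⟩
instance : Add (Pr k x) := ⟨fun p q => ⟨p.u + q.u, p.v + q.v⟩⟩
instance : Neg (Pr k x) := ⟨fun p => ⟨-p.u, -p.v⟩⟩
instance : SMul (Q k) (Pr k x) := ⟨fun r p => ⟨r.E x * p.u, r.a x * p.u + r.E (x + 1) * p.v⟩⟩
@[simp] lemma zero_u : (0 : Pr k x).u = 0 := rfl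
@[simp] lemma zero_v : (0 : Pr k x).v = 0 := rfl
@[simp] lemma add_u (p q : Pr k x) : (p + q).u = p.u + q.u := rfl
@[simp] lemma add_v (p q : Pr k x) : (p + q).v = p.v + q.v := rfl
@[simp] lemma neg_u (p : Pr k x) : (-p).u = -p.u := rfl
@[simp] lemma neg_v (p : Pr k x) : (-p).v = -p.v := rfl
@[simp] lemma smul_u (r : Q k) (p : Pr k x) : (r • p).u = r.E x * p.u := rfl
@[simp] lemma smul_v (r : Q k) (p : Pr k x) : (r • p).v = r.a x * p.u + r.E (x + 1) * p.v := rfl
instance : AddCommGroup (Pr k x) where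
  add_assoc a b c := by ext <;> simp [add_assoc]
  zero_add a := by ext <;> simp
  add_zero a := by ext <;> simp
  neg_add_cancel a := by ext <;> simp
  add_comm a b := by ext <;> simp [add_comm]
  nsmul := nsmulRec
  zsmul := zsmulRec
instance : Module (Q k) (Pr k x) where
  one_smul b := by ext <;> simp
  mul_smul r s b := by ext <;> simp <;> ring
  smul_zero r := by ext <;> simp
  smul_add r a b := by ext <;> simp <;> ring
  add_smul r s a := by ext <;> simp <;> ring
  zero_smul a := by ext <;> simp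

/-- the inclusion `P_x → R` -/
def incl (x : ℕ) : Pr k x →ₗ[Q k] Q k where
  toFun p := ⟨fun i => if i = x then p.u else 0, fun i => if i = x then p.v else 0⟩
  map_add' p q := by
    ext i <;> by_cases hi : i = x <;> simp [hi]
  map_smul' r p := by
    ext i
    · by_cases hi : i = x <;> simp [hi]
    · by_cases hi : i = x
      · subst hi; simp; ring
      · simp [hi]

/-- the projection `R → P_x` -/
def proj (x : ℕ) : Q k →ₗ[Q k] Pr k x where
  toFun r := ⟨r.E x, r.a x⟩
  map_add' _ _ := rfl
  map_smul' r p := by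
    ext
    · simp
    · simp; ring

/-- `P_x` is a retract of `R`. -/
instance : Module.Projective (Q k) (Pr k x) := by
  refine Module.Projective.of_split (incl x) (proj x) ?_
  ext p
  · simp [incl, proj]
  · simp [incl, proj]

/-- the projection `P_x → S_x` -/
def top (x : ℕ) : Pr k x →ₗ[Q k] S k x where
  toFun p := ⟨p.u⟩
  map_add' _ _ := rfl
  map_smul' _ _ := rfl

lemma top_surj (x : ℕ) : Function.Surjective (top (k := k) x) := fun s => ⟨⟨s.v, 0⟩, rfl⟩

/-- The kernel of `P_x → S_x → M`, with `S_x ≃ M`, is `S_{x+1}`. -/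
def kerEquiv (x : ℕ) {M : Type} [AddCommGroup M] [Module (Q k) M] (f : S k x ≃ₗ[Q k] M) :
    S k (x + 1) ≃ₗ[Q k] LinearMap.ker (f.toLinearMap.comp (top x)) where
  toFun s := ⟨⟨0, s.v⟩, by
    rw [LinearMap.mem_ker]
    change f (top x ⟨0, s.v⟩) = 0
    have : top x (⟨0, s.v⟩ : Pr k x) = 0 := rfl
    rw [this, map_zero]⟩
  invFun p := ⟨(p : Pr k x).v⟩
  map_add' s t := by
    apply Subtype.ext; ext <;> simp
  map_smul' r s := by
    apply Subtype.ext; ext <;> simp
  left_inv s := rfl
  right_inv p := by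
    apply Subtype.ext
    have h := LinearMap.mem_ker.1 p.2
    have h2 : top x (p : Pr k x) = 0 := f.injective (by rw [map_zero]; exact h)
    have h3 : (p : Pr k x).u = 0 := congrArg S.v h2
    ext
    · exact h3.symm
    · rfl

end Pr

/-- Key property of projective modules. -/
lemma proj_key {Y : Type} [AddCommGroup Y] [Module (Q k) Y] (hY : Module.Projective (Q k) Y)
    (x : ℕ) (m : Y) (h1 : (e (x + 1) : Q k) • m = m) (h2 : (ar (x + 1) : Q k) • m = 0) :
    ∃ m' : Y, (ar x : Q k) • m' = m := by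
  obtain ⟨σ, hσ⟩ := Module.projective_def'.1 hY
  have hdual : m = (σ m).sum fun y r => r • y := by
    have := LinearMap.congr_fun hσ m
    rw [LinearMap.comp_apply, Finsupp.linearCombination_apply] at this
    simpa using this.symm
  refine ⟨(σ m).sum fun y r => (⟨fun _ => r.a x, 0⟩ : Q k) • y, ?_⟩
  conv_rhs => rw [hdual]
  rw [Finsupp.smul_sum]
  refine Finset.sum_congr rfl fun y _ => ?_
  set r := σ m y with hr
  have hr1 : (e (x + 1) : Q k) * r = r := by
    have := congrArg (fun f => f y) (congrArg σ h1)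
    simpa [hr] using this
  have hr2 : (ar (x + 1) : Q k) * r = 0 := by
    have := congrArg (fun f => f y) (congrArg σ h2)
    simpa [hr] using this
  change (ar x : Q k) • (⟨fun _ => r.a x, 0⟩ : Q k) • y = r • y
  rw [smul_smul]
  congr 1
  ext i
  · have h3 := congrArg (fun q : Q k => q.E i) hr1
    have h4 := congrArg (fun q : Q k => q.a i) hr2
    by_cases hi : i = x + 1
    · subst hi
      simpa using h4.symm
    · simpa [hi] using h3
  · have h3 := congrArg (fun q : Q k => q.a i) hr1
    by_cases hi : i = x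
    · subst hi; simp
    · simp [hi] at h3 ⊢
      exact h3

/-- The map `P_x → Y` sending the generator to `m`, when `e_x` fixes the generator. -/
def toY {Y : Type} [AddCommGroup Y] [Module (Q k) Y] (x : ℕ) (m : Y) : Pr k x →ₗ[Q k] Y :=
  (LinearMap.toSpanSingleton (Q k) Y m).comp (Pr.incl x)

/-- Vanishing of all `Ext^{n+1}(S_x, Y)` for projective `Y`. -/
lemma ext_zero {Y : Type} [AddCommGroup Y] [Module (Q k) Y] (hY : Module.Projective (Q k) Y)
    (n : ℕ) : ∀ (x : ℕ) (M : Type) [AddCommGroup M] [Module (Q k) M] (_ : S k x ≃ₗ[Q k] M)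
      (ξ : Ext (ModuleCat.of (Q k) M) (ModuleCat.of (Q k) Y) (n + 1)), ξ = 0 := by
  induction n with
  | zero =>
    intro x M _ _ f ξ
    have hf : Function.Surjective (f.toLinearMap.comp (Pr.top x)) :=
      f.surjective.comp (Pr.top_surj x)
    have hS := LinearMap.shortExact_shortComplexKer hf
    have hP : Projective (ModuleCat.of (Q k) (Pr k x)) :=
      (IsProjective.iff_projective (Pr k x)).1 inferInstance
    obtain ⟨x1, hx1⟩ := Ext.contravariant_sequence_exact₃ hS _ ξ
      (Ext.eq_zero_of_projective _) (add_comm 1 0)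
    obtain ⟨φ, rfl⟩ := (Ext.mk₀_bijective _ _).2 x1
    -- the image of the generator of the kernel
    let g : LinearMap.ker (f.toLinearMap.comp (Pr.top x)) := Pr.kerEquiv x f ⟨1⟩
    have hg : (g : Pr k x) = ⟨0, 1⟩ := rfl
    let m : Y := φ.hom g
    obtain ⟨m', hm'⟩ := proj_key hY x m (by
      rw [← map_smul]
      congr 1
      apply Subtype.ext
      rw [Submodule.coe_smul, hg]
      ext <;> simp) (by
      rw [← map_smul, show (ar (x + 1) : Q k) • g = 0 from ?_, map_zero]
      apply Subtype.ext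
      rw [Submodule.coe_smul, hg]
      ext <;> simp)
    have hφ : φ = ModuleCat.ofHom (LinearMap.ker (f.toLinearMap.comp (Pr.top x))).subtype ≫
        ModuleCat.ofHom (toY x m') := by
      ext1
      ext1 q
      have h0 : ((q : Pr k x)).u = 0 := by
        have h := LinearMap.mem_ker.1 q.2
        have h2 : Pr.top x (q : Pr k x) = 0 := f.injective (by rw [map_zero]; exact h)
        exact congrArg S.v h2
      have hq : q = (⟨fun _ => (q : Pr k x).v, 0⟩ : Q k) • g := by
        apply Subtype.ext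
        rw [Submodule.coe_smul, hg]
        ext
        · simp [h0]
        · simp
      change φ.hom q = (Pr.incl x (q : Pr k x)) • m'
      conv_lhs => rw [hq]
      rw [map_smul]
      change (⟨fun _ => (q : Pr k x).v, 0⟩ : Q k) • m = _
      rw [← hm', smul_smul]
      congr 1
      ext i
      · simp [Pr.incl, h0]
      · simp [Pr.incl]
    rw [← hx1, hφ, ← Ext.mk₀_comp_mk₀]
    exact hS.extClass_comp_assoc _
  | succ n ih =>
    intro x M _ _ f ξ
    have hf : Function.Surjective (f.toLinearMap.comp (Pr.top x)) :=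
      f.surjective.comp (Pr.top_surj x)
    have hS := LinearMap.shortExact_shortComplexKer hf
    have hP : Projective (ModuleCat.of (Q k) (Pr k x)) :=
      (IsProjective.iff_projective (Pr k x)).1 inferInstance
    obtain ⟨x1, hx1⟩ := Ext.contravariant_sequence_exact₃ hS _ ξ
      (Ext.eq_zero_of_projective _) (add_comm 1 (n + 1))
    rw [← hx1, ih (x + 1) _ (Pr.kerEquiv x f) x1, Ext.comp_zero]

/-- `S_x` is never projective. -/
lemma not_projective (x : ℕ) : ¬ Module.Projective (Q k) (S k x) := by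
  intro h
  obtain ⟨s, hs⟩ := Module.projective_lifting_property (Pr.top (k := k) x) LinearMap.id
    (Pr.top_surj x)
  set p := s ⟨1⟩ with hp
  have h1 : Pr.top x p = ⟨1⟩ := LinearMap.congr_fun hs ⟨1⟩
  have h2 : p.u = 1 := congrArg S.v h1
  have h3 : (ar x : Q k) • p = 0 := by
    rw [hp, ← map_smul, show (ar x : Q k) • (⟨1⟩ : S k x) = 0 from ?_, map_zero]
    ext; simp
  have h4 := congrArg Pr.v h3
  simp [h2] at h4

lemma pd_not_le (n : ℕ) : ∀ (x : ℕ) (M : Type) [AddCommGroup M] [Module (Q k) M]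
    (_ : S k x ≃ₗ[Q k] M),
    ¬ projectiveDimension (ModuleCat.of (Q k) M) ≤ ((n : ℕ) : WithBot ℕ∞) := by
  induction n with
  | zero =>
    intro x M _ _ f h
    rw [pd_le_zero_iff] at h
    exact not_projective x (Module.Projective.of_equiv f.symm)
  | succ n ih =>
    intro x M _ _ f h
    have hf : Function.Surjective (f.toLinearMap.comp (Pr.top x)) :=
      f.surjective.comp (Pr.top_surj x)
    rw [pd_le_succ_iff _ hf] at h
    exact ih (x + 1) _ (Pr.kerEquiv x f) h

lemma pd_eq_top (x : ℕ) : projectiveDimension (ModuleCat.of (Q k) (S k x)) = ⊤ := by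
  by_contra hcon
  obtain ⟨n, hn⟩ := (projectiveDimension_ne_top_iff _).1 hcon
  rw [← projectiveDimension_le_iff] at hn
  exact pd_not_le n x _ (LinearEquiv.refl _ _) hn

lemma inPerpP (x : ℕ) : InPerpP (Q k) (S k x) := by
  intro P _ _ hP i hi
  obtain ⟨n, rfl⟩ : ∃ n, i = n + 1 := ⟨i - 1, by omega⟩
  exact ⟨fun a b => by
    rw [ext_zero hP n x _ (LinearEquiv.refl _ _) a, ext_zero hP n x _ (LinearEquiv.refl _ _) b]⟩

/-- `S_0` is injective. -/
lemma injective_S0 : Module.Injective (Q k) (S k 0) := by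
  apply Module.Baer.injective
  intro I g
  by_cases h : (e 0 : Q k) ∈ I
  · refine ⟨LinearMap.toSpanSingleton (Q k) (S k 0) (g ⟨e 0, h⟩), fun r hr => ?_⟩
    change r • g ⟨e 0, h⟩ = g ⟨r, hr⟩
    have h1 : g ⟨r, hr⟩ = (e 0 : Q k) • g ⟨r, hr⟩ := by ext; simp
    have h2 : (e 0 : Q k) • (⟨r, hr⟩ : I) = (⟨fun _ => r.E 0, 0⟩ : Q k) • ⟨e 0, h⟩ := by
      apply Subtype.ext
      change e 0 * r = (⟨fun _ => r.E 0, 0⟩ : Q k) * e 0
      ext i
      · by_cases hi : i = 0
        · subst hi; simp
        · simp [hi]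
      · simp
    rw [h1]
    have h3 : (e 0 : Q k) • g ⟨r, hr⟩ = g ((e 0 : Q k) • (⟨r, hr⟩ : I)) := (map_smul _ _ _).symm
    rw [h3, h2, map_smul]
    ext
    simp
  · refine ⟨0, fun r hr => ?_⟩
    have h1 : r.E 0 = 0 := by
      by_contra hcon
      apply h
      have : (e 0 : Q k) = (⟨fun i => if i = 0 then (r.E 0)⁻¹ else 0, 0⟩ : Q k) * r := by
        ext i
        · by_cases hi : i = 0
          · subst hi; simp [hcon]
          · simp [hi]
        · simp
      rw [this]
      exact I.mul_mem_left _ hr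
    have h2 : g ⟨r, hr⟩ = (e 0 : Q k) • g ⟨r, hr⟩ := by ext; simp
    rw [h2, ← map_smul, show (e 0 : Q k) • (⟨r, hr⟩ : I) = 0 from ?_, map_zero]
    · rfl
    · apply Subtype.ext
      change e 0 * r = 0
      ext i
      · by_cases hi : i = 0
        · subst hi; simp [h1]
        · simp [hi]
      · simp

/-- **Q1 has a negative answer**: there are a ring `R` and an injective module `A` in `⊥P`
(so of `⊥P`-dimension zero) with infinite projective dimension. -/
theorem result : ∃ (R : Type) (_ : Ring R) (A : Type) (_ : AddCommGroup A) (_ : Module R A),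
    injectiveDimension (ModuleCat.of R A) = 0 ∧ perpDim R A = 0 ∧
    projectiveDimension (ModuleCat.of R A) = ⊤ := by
  refine ⟨Q ℚ, inferInstance, S ℚ 0, inferInstance, inferInstance, ?_, ?_, pd_eq_top 0⟩
  · have hinj : Injective (ModuleCat.of (Q ℚ) (S ℚ 0)) :=
      Module.injective_object_of_injective_module _ _ (inj := injective_S0)
    apply le_antisymm
    · have h1 : HasInjectiveDimensionLT (ModuleCat.of (Q ℚ) (S ℚ 0)) 1 := inferInstance
      exact (injectiveDimension_le_iff _ 0).2 h1
    · rw [← not_lt]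
      intro hlt
      have h0 : injectiveDimension (ModuleCat.of (Q ℚ) (S ℚ 0)) < ((0 : ℕ) : WithBot ℕ∞) := hlt
      rw [injectiveDimension_lt_iff, hasInjectiveDimensionLT_zero_iff_isZero,
        ModuleCat.isZero_iff_subsingleton] at h0
      have h1 : (⟨1⟩ : S ℚ 0) = ⟨0⟩ := h0.elim _ _
      have h2 := congrArg S.v h1
      norm_num at h2
  · apply le_antisymm
    · exact iInf₂_le_of_le 0 (inPerpP 0) le_rfl
    · exact zero_le

end

end Pool.Agent.Results.MP_3e7e0d_al.InjectivePerpInfinitePd
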